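import Pool.Agent.helper13.RF.Spec1

/-! Row NIX (project RF): the image of the norm map of the class groups has index at least 5. -/

set_option autoImplicit false

open NumberField
open scoped nonZeroDivisors

namespace Pool.Agent.RF

theorem NIX (hUNI : UNI_stmt) (hSCX : SCX_stmt) (hAMA : AMA_stmt) (hAMB : AMB_stmt) (hNIP : NIP_stmt) : NIX_stmt := by
  classical
  intro K L _ _ _ _ _ σ hσ hU n hn
  obtain ⟨s, hs⟩ := hSCX K L σ
  obtain ⟨h1, h0⟩ := hUNI K L σ hσ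
  have h2 := hAMA K L σ hσ hU h0 s hs
  have h3 := hAMB K L σ hσ hU
  have h4 : Nat.card (ClassGroup.extendedHom (𝓞 K) (𝓞 L)).range * Nat.card (ClassGroup.extendedHom (𝓞 K) (𝓞 L)).ker =
      Nat.card (ClassGroup (𝓞 K)) := by
    rw [← Subgroup.index_ker]
    exact Subgroup.index_mul_card _
  -- the norm is invariant
  have hinv : ∀ c : ClassGroup (𝓞 L), n (s c) = n c := by
    intro c
    obtain ⟨I, rfl⟩ := ClassGroup.mk0_surjective c
    have hI0 : (I : Ideal (𝓞 L)) ≠ ⊥ := nonZeroDivisors.coe_ne_zero I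
    have hJ0 : (I : Ideal (𝓞 L)).map (gO σ) ≠ ⊥ := by
      intro h
      have h5 : Ideal.relNorm (𝓞 K) ((I : Ideal (𝓞 L)).map (gO σ)) = ⊥ := by
        rw [h]
        exact Ideal.relNorm_bot (𝓞 K)
      rw [Ideal.relNorm_map_algEquiv, Ideal.relNorm_eq_bot_iff] at h5
      exact hI0 h5
    obtain ⟨J, hJ⟩ : ∃ J : (Ideal (𝓞 L))⁰, (J : Ideal (𝓞 L)) = (I : Ideal (𝓞 L)).map (gO σ) :=
      ⟨⟨_, mem_nonZeroDivisors_iff_ne_zero.2 hJ0⟩, rfl⟩
    rw [hs I J hJ]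
    have hN0 : Ideal.relNorm (𝓞 K) (I : Ideal (𝓞 L)) ≠ ⊥ := fun h => hI0 (Ideal.relNorm_eq_bot_iff.1 h)
    obtain ⟨N, hN⟩ : ∃ N : (Ideal (𝓞 K))⁰, (N : Ideal (𝓞 K)) = Ideal.relNorm (𝓞 K) (I : Ideal (𝓞 L)) :=
      ⟨⟨_, mem_nonZeroDivisors_iff_ne_zero.2 hN0⟩, rfl⟩
    rw [hn I N hN, hn J N (by rw [hN, hJ, Ideal.relNorm_map_algEquiv])]
  refine hNIP _ _ n s hinv ?_
  rw [← h4]
  calc 5 * Nat.card {c : ClassGroup (𝓞 L) // s c = c}
      ≤ 5 * (Nat.card (ClassGroup.extendedHom (𝓞 K) (𝓞 L)).range * (nm (gU σ)).range.relIndex (df (gU σ)).ker) :=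
        Nat.mul_le_mul_left 5 h2
    _ = Nat.card (ClassGroup.extendedHom (𝓞 K) (𝓞 L)).range * (5 * (nm (gU σ)).range.relIndex (df (gU σ)).ker) := by ring
    _ = Nat.card (ClassGroup.extendedHom (𝓞 K) (𝓞 L)).range * (df (gU σ)).range.relIndex (nm (gU σ)).ker := by rw [h1]
    _ ≤ _ := Nat.mul_le_mul_left _ h3

end Pool.Agent.RF
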