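import Pool.Agent.helper13.RF.Spec1

/-! Row TRL (project RF): a Galois extension of degree 5 of a totally real field is totally real. -/

set_option autoImplicit false

open NumberField
open scoped nonZeroDivisors

namespace Pool.Agent.RF

theorem TRL : TRL_stmt := by
  intro K L _ _ _ _ _ hg h5 hK
  have hodd : Odd (Module.finrank K L) := by
    rw [h5]
    decide
  have hun : IsUnramifiedAtInfinitePlaces K L := IsUnramifiedAtInfinitePlaces_of_odd_finrank hodd
  refine ⟨fun w => ?_⟩
  have hw := hun.isUnramified w
  rcases InfinitePlace.isUnramified_iff.1 hw with h | h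
  · exact h
  · exact absurd (hK.isReal (w.comap (algebraMap K L))) (InfinitePlace.not_isReal_iff_isComplex.2 h)

end Pool.Agent.RF
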