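import Pool.Agent.helper13.RF.SpecU

/-!
# RF (MP_16912e_nt), stage 2, row UDE: the element `z`
-/

set_option autoImplicit false

namespace Pool.Agent.RF

open NumberField

theorem UDE (h1 : UUE_stmt) : UDE_stmt := by
  intro D₀ F _ _ C p q f hp hq hpD hqD hE
  obtain ⟨-, -, a3, a4, -, -, -, -, -, -, -, -, -, a14, a15, a16, -, a18, -⟩ := h1 D₀ F C p f hp hpD
  obtain ⟨-, -, b3, b4, -, -, -, -, -, -, -, -, -, b14, b15, b16, -, b18, -⟩ := h1 D₀ F C q f hq hqD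
  obtain ⟨γ, hγ⟩ := hE
  have hinj : Function.Injective (algebraMap (𝓞 F) F) := NumberField.RingOfIntegers.coe_injective
  have hγ' : algebraMap (𝓞 F) F (be C f p) = algebraMap (𝓞 F) F (be C f q) * γ ^ 5 := hγ
  rw [a4, b4, map_mul, map_mul, map_pow, map_pow] at hγ'
  have np0 : algebraMap (𝓞 F) F (C.ι (star p.n)) ≠ 0 := fun h => a16 (hinj (by rw [h, map_zero]))
  have nq0 : algebraMap (𝓞 F) F (C.ι (star q.n)) ≠ 0 := fun h => b16 (hinj (by rw [h, map_zero]))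
  have up0 : algebraMap (𝓞 F) F (uu C f p) ≠ 0 := fun h => a14 (hinj (by rw [h, map_zero]))
  have uq0 : algebraMap (𝓞 F) F (uu C f q) ≠ 0 := fun h => b14 (hinj (by rw [h, map_zero]))
  have g0 : γ ≠ 0 := by
    rintro rfl
    rw [zero_pow (by norm_num), mul_zero] at hγ'
    exact mul_ne_zero up0 (pow_ne_zero _ np0) hγ'
  have a3' : algebraMap (𝓞 F) F (uu C f p) * algebraMap (𝓞 F) F (C.σ (C.σ (uu C f p))) =
      algebraMap (𝓞 F) F (C.ι p.n) ^ 5 := by
    rw [← map_mul, a3, map_pow]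
  set zF : F := algebraMap (𝓞 F) F (C.ι p.n) * algebraMap (𝓞 F) F (C.ι (star p.n)) /
    (γ * algebraMap (𝓞 F) F (C.ι (star q.n))) with hzF
  have hz5 : zF ^ 5 = algebraMap (𝓞 F) F (C.σ (C.σ (uu C f p)) * uu C f q) := by
    rw [hzF, div_pow, div_eq_iff (pow_ne_zero _ (mul_ne_zero g0 nq0)), mul_pow, mul_pow, map_mul, ← a3']
    linear_combination (algebraMap (𝓞 F) F (C.σ (C.σ (uu C f p)))) * hγ'
  have hint : IsIntegral ℤ zF := by
    apply IsIntegral.of_pow (n := 5) (by norm_num)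
    rw [hz5]
    exact NumberField.RingOfIntegers.isIntegral_coe _
  obtain ⟨z, hz⟩ : ∃ z : 𝓞 F, algebraMap (𝓞 F) F z = zF :=
    (IsIntegralClosure.isIntegral_iff (A := 𝓞 F)).1 hint
  have hz5' : z ^ 5 = C.σ (C.σ (uu C f p)) * uu C f q := by
    apply hinj
    rw [map_pow, hz, hz5]
  refine ⟨z, hz5', ?_⟩
  apply C.z5
  have e1 := congrArg (fun x => C.σ (C.σ x)) hz5'
  simp only [map_pow, map_mul] at e1
  rw [a18] at e1
  rw [mul_pow, hz5', e1, map_mul, mul_pow, ← a3, ← b3]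
  ring

end Pool.Agent.RF
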