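import Pool.Agent.helper95.RF.SpecC2

/-! Row CLB (project RF): lower bound for the number of all tuples. -/

set_option autoImplicit false

namespace Pool.Agent.RF

open Finset NumberField Pool.Agent.helper3.FT

theorem CLB_tw (k M : OO) (s : ℤ) : CG k M s ↔ TW k 1 1 M s := by
  unfold CG TW
  have e : star k ^ 2 * (r5 * (s : OO) - (M.norm : OO)) - 2 * ph * k ^ 2 * M ^ 2 =
      star (1 : OO) * (r5 * (s : OO) - ((1 : ℤ) : OO) * (M.norm : OO)) * star k ^ 2 -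
        2 * ph * ((1 : ℤ) : OO) * k ^ 2 * 1 * M ^ 2 := by
    rw [star_one, Int.cast_one]
    ring
  rw [e]

/-- The size of the error. -/
theorem CLB_num (η N C E B S Q L V : ℝ) (hη : 0 < η) (hη1 : η ≤ 1 / 100) (hN : 1 ≤ N) (hC : 1 ≤ C) (hE : 1 ≤ E)
    (hB : 1 ≤ B) (hS0 : 0 < S) (hSu : S ≤ 8 * B ^ 2 * N ^ (1 - 4 / 3 * η)) (hQ1 : 1 ≤ Q)
    (hQ2 : Q ≤ B * N ^ (1 / 2 - η)) (hL1 : 1 ≤ L) (hL2 : L ≤ √S) (hL3 : √S ≤ 200 * E * L) (hV0 : 0 ≤ V) (hV : V ≤ S)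
    (hNB : B ≤ N ^ (1 / 2 : ℝ)) (hK : C * B ^ 2 * (808 * E + 8) ≤ N ^ (η / 12)) :
    C * Q ^ (η / 100) * (L * Q + 1 * (Q ^ 2 * √V + Q * V) / L + Q * √V) + C * L ^ 2 ≤ N ^ (1 - 5 / 4 * η) := by
  have hN0 : 0 < N := by linarith
  obtain ⟨s, hs⟩ : ∃ s, s = √S := ⟨_, rfl⟩
  have hs0 : 0 < s := by rw [hs]; exact Real.sqrt_pos.2 hS0
  have hs2 : s ^ 2 = S := by rw [hs]; exact Real.sq_sqrt hS0.le
  rw [← hs] at hL2 hL3
  have hVs : √V ≤ s := by rw [hs]; exact Real.sqrt_le_sqrt hV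
  have hV0' : 0 ≤ √V := Real.sqrt_nonneg V
  have hQ0 : 0 < Q := by linarith
  have hL0 : 0 < L := by linarith
  have hE0 : 0 < E := by linarith
  have hB0 : 0 < B := by linarith
  have hC0 : 0 < C := by linarith
  -- the terms
  have h2 : 1 * (Q ^ 2 * √V + Q * V) / L ≤ 200 * E * (Q ^ 2 + Q * s) := by
    rw [one_mul, div_le_iff₀ hL0]
    have a1 : Q ^ 2 * √V ≤ Q ^ 2 * (200 * E * L) := mul_le_mul_of_nonneg_left (hVs.trans hL3) (by positivity)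
    have a2 : Q * V ≤ Q * s * (200 * E * L) := by
      have : V ≤ s * (200 * E * L) := by
        calc V ≤ s * s := by rw [← sq, hs2]; exact hV
          _ ≤ s * (200 * E * L) := mul_le_mul_of_nonneg_left hL3 hs0.le
      calc Q * V ≤ Q * (s * (200 * E * L)) := mul_le_mul_of_nonneg_left this hQ0.le
        _ = Q * s * (200 * E * L) := by ring
    calc Q ^ 2 * √V + Q * V ≤ Q ^ 2 * (200 * E * L) + Q * s * (200 * E * L) := add_le_add a1 a2
      _ = 200 * E * (Q ^ 2 + Q * s) * L := by ring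
  have h1 : L * Q ≤ s * Q := mul_le_mul_of_nonneg_right hL2 hQ0.le
  have h3 : Q * √V ≤ Q * s := mul_le_mul_of_nonneg_left hVs hQ0.le
  have h12 : L * Q + 1 * (Q ^ 2 * √V + Q * V) / L + Q * √V ≤ 202 * E * (Q ^ 2 + Q * s) := by
    have b1 : Q * s ≤ E * (Q * s) := le_mul_of_one_le_left (by positivity) hE
    have b2 : 0 ≤ E * Q ^ 2 := by positivity
    nlinarith
  -- powers of `N`
  have hQN : Q ≤ N := by
    calc Q ≤ B * N ^ (1 / 2 - η) := hQ2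
      _ ≤ N ^ (1 / 2 : ℝ) * N ^ (1 / 2 - η) := mul_le_mul_of_nonneg_right hNB (by positivity)
      _ = N ^ ((1 / 2 : ℝ) + (1 / 2 - η)) := (Real.rpow_add hN0 _ _).symm
      _ ≤ N ^ (1 : ℝ) := Real.rpow_le_rpow_of_exponent_le hN (by linarith)
      _ = N := Real.rpow_one N
  have h4 : Q ^ (η / 100) ≤ N ^ (η / 100) := Real.rpow_le_rpow hQ0.le hQN (by positivity)
  have h5 : Q ^ 2 ≤ B ^ 2 * N ^ (1 - 2 * η) := by
    calc Q ^ 2 ≤ (B * N ^ (1 / 2 - η)) ^ 2 := pow_le_pow_left₀ hQ0.le hQ2 2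
      _ = B ^ 2 * (N ^ (1 / 2 - η)) ^ 2 := by ring
      _ = B ^ 2 * N ^ (1 - 2 * η) := by
        have c2 : (N ^ (1 / 2 - η)) ^ 2 = N ^ (1 - 2 * η) := by
          rw [← Real.rpow_natCast, ← Real.rpow_mul hN0.le]
          congr 1
          push_cast
          ring
        rw [c2]
  have h6 : s ≤ 3 * B * N ^ (1 / 2 - 2 / 3 * η) := by
    have c1 : s ^ 2 ≤ (3 * B * N ^ (1 / 2 - 2 / 3 * η)) ^ 2 := by
      have c2 : (N ^ (1 / 2 - 2 / 3 * η)) ^ 2 = N ^ (1 - 4 / 3 * η) := by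
        rw [← Real.rpow_natCast, ← Real.rpow_mul hN0.le]
        congr 1
        push_cast
        ring
      have c3 : (3 * B * N ^ (1 / 2 - 2 / 3 * η)) ^ 2 = 9 * B ^ 2 * N ^ (1 - 4 / 3 * η) := by
        rw [mul_pow, mul_pow, c2]
        norm_num
      rw [c3, hs2]
      have c4 : 0 ≤ B ^ 2 * N ^ (1 - 4 / 3 * η) := by positivity
      linarith
    exact (sq_le_sq₀ hs0.le (by positivity)).1 c1
  have h7 : Q * s ≤ 3 * B ^ 2 * N ^ (1 - 5 / 3 * η) := by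
    calc Q * s ≤ (B * N ^ (1 / 2 - η)) * (3 * B * N ^ (1 / 2 - 2 / 3 * η)) :=
          mul_le_mul hQ2 h6 hs0.le (by positivity)
      _ = 3 * B ^ 2 * (N ^ (1 / 2 - η) * N ^ (1 / 2 - 2 / 3 * η)) := by ring
      _ = 3 * B ^ 2 * N ^ (1 - 5 / 3 * η) := by
        rw [← Real.rpow_add hN0]
        congr 2
        ring
  have h8 : N ^ (η / 100) * (Q ^ 2 + Q * s) ≤ 4 * B ^ 2 * N ^ (1 - 4 / 3 * η) := by
    have d1 : N ^ (η / 100) * N ^ (1 - 2 * η) ≤ N ^ (1 - 4 / 3 * η) := by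
      rw [← Real.rpow_add hN0]
      exact Real.rpow_le_rpow_of_exponent_le hN (by linarith)
    have d2 : N ^ (η / 100) * N ^ (1 - 5 / 3 * η) ≤ N ^ (1 - 4 / 3 * η) := by
      rw [← Real.rpow_add hN0]
      exact Real.rpow_le_rpow_of_exponent_le hN (by linarith)
    have d0 : 0 ≤ N ^ (η / 100) := by positivity
    calc N ^ (η / 100) * (Q ^ 2 + Q * s)
        ≤ N ^ (η / 100) * (B ^ 2 * N ^ (1 - 2 * η) + 3 * B ^ 2 * N ^ (1 - 5 / 3 * η)) :=
          mul_le_mul_of_nonneg_left (add_le_add h5 h7) d0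
      _ = B ^ 2 * (N ^ (η / 100) * N ^ (1 - 2 * η)) + 3 * B ^ 2 * (N ^ (η / 100) * N ^ (1 - 5 / 3 * η)) := by ring
      _ ≤ B ^ 2 * N ^ (1 - 4 / 3 * η) + 3 * B ^ 2 * N ^ (1 - 4 / 3 * η) :=
          add_le_add (mul_le_mul_of_nonneg_left d1 (by positivity)) (mul_le_mul_of_nonneg_left d2 (by positivity))
      _ = 4 * B ^ 2 * N ^ (1 - 4 / 3 * η) := by ring
  have hP : 0 ≤ N ^ (1 - 4 / 3 * η) := by positivity
  have h9 : C * Q ^ (η / 100) * (L * Q + 1 * (Q ^ 2 * √V + Q * V) / L + Q * √V) ≤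
      C * (202 * E) * (4 * B ^ 2 * N ^ (1 - 4 / 3 * η)) := by
    calc C * Q ^ (η / 100) * (L * Q + 1 * (Q ^ 2 * √V + Q * V) / L + Q * √V)
        ≤ C * Q ^ (η / 100) * (202 * E * (Q ^ 2 + Q * s)) := mul_le_mul_of_nonneg_left h12 (by positivity)
      _ = C * (202 * E) * (Q ^ (η / 100) * (Q ^ 2 + Q * s)) := by ring
      _ ≤ C * (202 * E) * (N ^ (η / 100) * (Q ^ 2 + Q * s)) :=
          mul_le_mul_of_nonneg_left (mul_le_mul_of_nonneg_right h4 (by positivity)) (by positivity)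
      _ ≤ _ := mul_le_mul_of_nonneg_left h8 (by positivity)
  have h10 : C * L ^ 2 ≤ C * (8 * B ^ 2 * N ^ (1 - 4 / 3 * η)) := by
    refine mul_le_mul_of_nonneg_left ?_ hC0.le
    calc L ^ 2 ≤ s ^ 2 := pow_le_pow_left₀ hL0.le hL2 2
      _ = S := hs2
      _ ≤ _ := hSu
  calc C * Q ^ (η / 100) * (L * Q + 1 * (Q ^ 2 * √V + Q * V) / L + Q * √V) + C * L ^ 2
      ≤ C * (202 * E) * (4 * B ^ 2 * N ^ (1 - 4 / 3 * η)) + C * (8 * B ^ 2 * N ^ (1 - 4 / 3 * η)) := add_le_add h9 h10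
    _ = C * B ^ 2 * (808 * E + 8) * N ^ (1 - 4 / 3 * η) := by ring
    _ ≤ N ^ (η / 12) * N ^ (1 - 4 / 3 * η) := mul_le_mul_of_nonneg_right hK hP
    _ = N ^ (1 - 5 / 4 * η) := by
      rw [← Real.rpow_add hN0]
      congr 1
      ring

theorem CLB (h1 : CSU_stmt) (h2 : CLN_stmt) (h3 : CPX_stmt) (h4 : WVA_stmt) : CLB_stmt := by
  classical
  intro E B η hE hB hη hη1
  obtain ⟨C, hC, hCS⟩ := h1 (1 / 4) (η / 100) 1 (by norm_num) (by norm_num) (by positivity) le_rfl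
  obtain ⟨N₁, hN₁⟩ := h3 E B η hE hB hη hη1
  have hEr : (1 : ℝ) ≤ E := by exact_mod_cast hE
  have hBr : (1 : ℝ) ≤ B := by exact_mod_cast hB
  obtain ⟨Kc, hKc⟩ : ∃ Kc : ℝ, Kc = C * (B : ℝ) ^ 2 * (808 * E + 8) := ⟨_, rfl⟩
  have hK0 : 0 < Kc := by
    rw [hKc]
    positivity
  refine ⟨max N₁ (max 1 (max ((B : ℝ) ^ 2) (Kc ^ (12 / η)))), ?_⟩
  intro N hN Q L V z₀ S T M₀ s₀ hRg hPar hKF
  have hNa : N₁ ≤ N := (le_max_left _ _).trans hN
  have hNb : 1 ≤ N := (le_max_left _ _).trans ((le_max_right _ _).trans hN)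
  have hNc : (B : ℝ) ^ 2 ≤ N := (le_max_left _ _).trans ((le_max_right _ _).trans ((le_max_right _ _).trans hN))
  have hNd : Kc ^ (12 / η) ≤ N := (le_max_right _ _).trans ((le_max_right _ _).trans ((le_max_right _ _).trans hN))
  obtain ⟨_, hsz⟩ := hN₁ N hNa Q hRg
  obtain ⟨hS1, hS2, hV4, hLlo, hVlo, hLN, hVN, hEQ⟩ := hsz L V z₀ S hPar
  have hN0 : 0 < N := by linarith
  have hEQn : E ≤ Q := by exact_mod_cast hEQ
  have hQ1 : 1 ≤ Q := hE.trans hEQn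
  have hQr : (1 : ℝ) ≤ Q := by exact_mod_cast hQ1
  have hL1 : (1 : ℝ) ≤ L := (Real.one_le_rpow hNb (by linarith)).trans hLlo
  have hV1 : (1 : ℝ) ≤ V := (Real.one_le_rpow hNb (by linarith)).trans hVlo
  have hL1n : 1 ≤ L := by exact_mod_cast hL1
  have hV1n : 1 ≤ V := by exact_mod_cast hV1
  -- the sizes
  have hVS : (V : ℝ) ≤ S := by
    have a1 := hPar.z1
    have a2 := hPar.z2
    have a3 : (V : ℝ) ≤ E * V := le_mul_of_one_le_left (by linarith) hEr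
    have a4 := hPar.S0
    nlinarith
  have hLS : (L : ℝ) ≤ √S := by
    refine le_trans ?_ hPar.L1
    nlinarith
  have hEL : (E : ℝ) * (L : ℝ) ^ 2 ≤ 1 * V := by
    have a1 : (100 * (E : ℝ) * (L + 1)) ^ 2 ≤ S := by
      calc (100 * (E : ℝ) * (L + 1)) ^ 2 ≤ (√S) ^ 2 := pow_le_pow_left₀ (by positivity) hPar.L1 2
        _ = S := Real.sq_sqrt hPar.S0.le
    have a2 : (E : ℝ) * (10000 * E * (L + 1) ^ 2) ≤ E * (4 * V) := by
      calc (E : ℝ) * (10000 * E * (L + 1) ^ 2) = (100 * (E : ℝ) * (L + 1)) ^ 2 := by ring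
        _ ≤ S := a1
        _ ≤ 4 * E * V := hPar.V2
        _ = E * (4 * V) := by ring
    have a3 : 10000 * (E : ℝ) * (L + 1) ^ 2 ≤ 4 * V := le_of_mul_le_mul_left a2 (by linarith)
    have a4 : (E : ℝ) * (L : ℝ) ^ 2 ≤ E * (L + 1) ^ 2 :=
      mul_le_mul_of_nonneg_left (pow_le_pow_left₀ (by linarith) (by linarith) 2) (by linarith)
    have a5 : 0 ≤ (E : ℝ) * (L : ℝ) ^ 2 := by positivity
    linarith
  have hLV : (L : ℝ) ^ 2 ≤ V := by
    have a1 : (L : ℝ) ^ 2 ≤ E * (L : ℝ) ^ 2 := le_mul_of_one_le_left (by positivity) hEr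
    linarith
  have hLQ : (L : ℝ) ^ 2 ≤ (Q : ℝ) ^ 3 := by linarith
  -- the fibres
  have hfib : ∀ k : OO, k ∈ T → ∃ a b d e₁ e₂ f : ℤ, RQ k 1 (1 * E) a b d ∧ ∀ x y z : ℤ,
      (TW k 1 1 (M₀ k + (E : OO) * ⟨x, y⟩) (s₀ k + E * z) ↔
        ((k.norm.natAbs ^ 3 : ℕ) : ℤ) ∣ z - (a * x ^ 2 + b * x * y + d * y ^ 2 + e₁ * x + e₂ * y + f)) := by
    intro k hk
    have hkk := hKF.kk k hk
    refine h2 E k 1 (M₀ k) 1 (s₀ k) hkk.pr hkk.n5 ?_ ?_
    · refine (Nat.Prime.coprime_iff_not_dvd hkk.pr).2 fun hd => ?_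
      have := Nat.le_of_dvd hE hd
      have h5 := hkk.lo
      omega
    · rw [star_one]
      exact isCoprime_one_right
  choose! a b d e₁ e₂ f hf using hfib
  have hHit : ∀ k ∈ T, Hit E k (M₀ k) (s₀ k) L V z₀ =
      FB 0 0 z₀ L V (k.norm.natAbs ^ 3) (a k) (b k) (d k) (e₁ k) (e₂ k) (f k) := by
    intro k hk
    ext t
    unfold Hit FB
    rw [Finset.mem_filter, Finset.mem_filter, zero_add]
    refine and_congr_right fun _ => ?_
    rw [CLB_tw]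
    exact (hf k hk).2 t.1 t.2.1 t.2.2
  have hsum : ∑ k ∈ T, ((Hit E k (M₀ k) (s₀ k) L V z₀).card : ℝ) =
      ∑ k ∈ T, ((FB 0 0 z₀ L V (k.norm.natAbs ^ 3) (a k) (b k) (d k) (e₁ k) (e₂ k) (f k)).card : ℝ) :=
    Finset.sum_congr rfl fun k hk => by rw [hHit k hk]
  have hva : |va (1 : OO)| ≤ 2 * 1 := by
    have h5 := (h4.2.2.2.1 1).1
    rw [Int.cast_one, Int.cast_one] at h5
    rw [h5]
    norm_num
  have hvb : |vb (1 : OO)| ≤ 2 * 1 := by
    have h5 := (h4.2.2.2.1 1).2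
    rw [Int.cast_one, Int.cast_one] at h5
    rw [h5]
    norm_num
  have hmain := hCS Q L V E 1 1 T (fun k => (a k, b k, d k)) (fun _ => 0) (fun _ => 0) (fun _ => z₀) e₁ e₂ f hKF hQ1
    hL1n hV1n hE le_rfl hQr (fun h => by
      have h5 : (1 : ℤ) = 0 := congrArg QuadraticAlgebra.re h
      omega) hva hvb
    (fun k _ => by
      rw [star_one]
      exact isCoprime_one_right)
    (fun k hk => by
      have h5 := (hf k hk).1
      rw [one_mul] at h5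
      exact h5) hEL hLQ hV4
  have hNB : (B : ℝ) ≤ N ^ (1 / 2 : ℝ) := by
    rw [← Real.sqrt_eq_rpow]
    exact Real.le_sqrt_of_sq_le hNc
  have hKN : Kc ≤ N ^ (η / 12) := by
    calc Kc = (Kc ^ (12 / η)) ^ (η / 12) := by
          rw [← Real.rpow_mul hK0.le]
          have : 12 / η * (η / 12) = 1 := by
            field_simp
          rw [this, Real.rpow_one]
      _ ≤ N ^ (η / 12) := Real.rpow_le_rpow (by positivity) hNd (by positivity)
  have hnum := CLB_num η N C E B S Q L V hη hη1 hNb hC hEr hBr hPar.S0 hS2 hQr hRg.q2 hL1 hLS hPar.L2 (by linarith) hVS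
    hNB (by rw [← hKc]; exact hKN)
  rw [hsum]
  have h6 := (abs_le.1 hmain).1
  simp only at h6
  linarith

end Pool.Agent.RF
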