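import Pool.Agent.helper88.RF.SpecW

/-! Row WMU (project RF): common roots of the two cubic forms. -/

set_option autoImplicit false

open Finset

namespace Pool.Agent.RF

theorem WMU_pair {R : Type} [CommRing R] [IsDomain R] [IsPrincipalIdealRing R] (n k : R) (hn : n ≠ 0) :
    ∃ d n₁ k₁ : R, d ≠ 0 ∧ n = d * n₁ ∧ k = d * k₁ ∧ IsCoprime n₁ k₁ := by
  obtain ⟨d, hd⟩ := (IsPrincipalIdealRing.principal (Ideal.span {n, k} : Ideal R)).principal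
  have hd' : (Ideal.span {n, k} : Ideal R) = Ideal.span {d} := hd
  have h1 : n ∈ (Ideal.span {d} : Ideal R) := by
    rw [← hd']
    exact Ideal.subset_span (Set.mem_insert _ _)
  have h2 : k ∈ (Ideal.span {d} : Ideal R) := by
    rw [← hd']
    exact Ideal.subset_span (Set.mem_insert_of_mem _ rfl)
  have h3 : d ∈ (Ideal.span {n, k} : Ideal R) := by
    rw [hd']
    exact Ideal.mem_span_singleton_self d
  obtain ⟨n₁, hn₁⟩ := Ideal.mem_span_singleton.1 h1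
  obtain ⟨k₁, hk₁⟩ := Ideal.mem_span_singleton.1 h2
  obtain ⟨x, y, hxy⟩ := Ideal.mem_span_pair.1 h3
  have hd0 : d ≠ 0 := by
    intro h
    rw [h, zero_mul] at hn₁
    exact hn hn₁
  refine ⟨d, n₁, k₁, hd0, hn₁, hk₁, x, y, ?_⟩
  refine mul_left_cancel₀ hd0 ?_
  rw [hn₁, hk₁] at hxy
  linear_combination hxy

theorem WMU_alg {R : Type} [CommRing R] [IsDomain R] [IsPrincipalIdealRing R] (a a' z z' n k φ f : R)
    (hφ : φ * f = -1) (h5 : (5 : R) ≠ 0) (ha : a ≠ 0) (hn : n ≠ 0) (hk : k ≠ 0)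
    (e1 : 5 * a * n ^ 3 + 2 * f * z * n * k ^ 2 - z' * k ^ 3 = 0)
    (e2 : f * z * n ^ 3 + 2 * z' * n ^ 2 * k - 5 * f * a' * k ^ 3 = 0) :
    ∃ μ τ : R, μ ≠ 0 ∧ μ * τ = 25 * (a * a') ∧ 25 * a * z * μ ^ 3 = 3125 * a ^ 4 * a' + 2 * φ * μ ^ 5 := by
  obtain ⟨d, n₁, k₁, hd, rfl, rfl, hc⟩ := WMU_pair n k hn
  have hn1 : n₁ ≠ 0 := right_ne_zero_of_mul hn
  have hk1 : k₁ ≠ 0 := right_ne_zero_of_mul hk
  have e1' : 5 * a * n₁ ^ 3 + 2 * f * z * n₁ * k₁ ^ 2 - z' * k₁ ^ 3 = 0 :=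
    mul_left_cancel₀ (pow_ne_zero 3 hd) (by linear_combination e1)
  have e2' : f * z * n₁ ^ 3 + 2 * z' * n₁ ^ 2 * k₁ - 5 * f * a' * k₁ ^ 3 = 0 :=
    mul_left_cancel₀ (pow_ne_zero 3 hd) (by linear_combination e2)
  have hk5 : k₁ ∣ 5 * a := by
    have h1 : k₁ ∣ 5 * a * n₁ ^ 3 := ⟨z' * k₁ ^ 2 - 2 * f * z * n₁ * k₁, by linear_combination e1'⟩
    exact (hc.symm.pow_right).dvd_of_dvd_mul_right h1
  have hn5 : n₁ ∣ 5 * a' := by
    have h1 : n₁ ∣ (5 * f * a') * k₁ ^ 3 := ⟨f * z * n₁ ^ 2 + 2 * z' * n₁ * k₁, by linear_combination -e2'⟩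
    have h2 : n₁ ∣ 5 * f * a' := (hc.pow_right).dvd_of_dvd_mul_right h1
    have h3 : 5 * a' = (5 * f * a') * (-φ) := by linear_combination 5 * a' * hφ
    rw [h3]
    exact h2.mul_right _
  obtain ⟨t, ht⟩ := hk5
  obtain ⟨s, hs⟩ := hn5
  have ht0 : t ≠ 0 := by
    intro h
    rw [h, mul_zero] at ht
    exact mul_ne_zero h5 ha ht
  refine ⟨t * n₁, s * k₁, mul_ne_zero ht0 hn1, ?_, ?_⟩
  · linear_combination -(k₁ * t) * hs - 5 * a' * ht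
  · -- the equation without `z'`
    have hst : z * n₁ ^ 3 * k₁ ^ 2 = a' * k₁ ^ 5 + 2 * φ * a * n₁ ^ 5 := by
      refine mul_left_cancel₀ h5 ?_
      linear_combination (-φ * k₁ ^ 2) * e2' + (-φ * 2 * n₁ ^ 2) * e1' +
        (5 * z * n₁ ^ 3 * k₁ ^ 2 - 5 * a' * k₁ ^ 5) * hφ
    have ht3 : k₁ ^ 3 * t ^ 3 = 125 * a ^ 3 := by
      rw [← mul_pow, ← ht]
      ring
    have ht5 : k₁ ^ 5 * t ^ 5 = 3125 * a ^ 5 := by
      rw [← mul_pow, ← ht]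
      ring
    refine mul_left_cancel₀ (pow_ne_zero 5 hk1) ?_
    linear_combination (25 * a * z * n₁ ^ 3 * k₁ ^ 2) * ht3 - (2 * φ * n₁ ^ 5) * ht5 + 3125 * a ^ 4 * hst

theorem WMU_proof (hWEU : WEU_stmt) : WMU_stmt := by
  intro a z n k ha hn hk e1 e2
  have h1 : IsDomain OO := hWEU.1
  have h2 : IsPrincipalIdealRing OO := hWEU.2
  have hφ : ph * star ph = (-1 : OO) := by
    ext <;> simp [ph] <;> rfl
  have h5 : (5 : OO) ≠ 0 := by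
    intro h
    have h3 : (5 : ℤ) = 0 := congrArg QuadraticAlgebra.re h
    norm_num at h3
  obtain ⟨μ, τ, hμ, hμτ, h⟩ := WMU_alg a (star a) z (star z) n k ph (star ph) hφ h5 ha hn hk e1 e2
  refine ⟨μ, hμ, ⟨τ, ?_⟩, h⟩
  rw [hμτ]
  push_cast
  rw [← QuadraticAlgebra.algebraMap_norm_eq_mul_star]
  simp

end Pool.Agent.RF
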